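import Pool.Agent.U486.HF.SixPos

/-!
# Positivity of the Gauss–Bonnet–Chern integrand for a nonnegative curvature operator and six skew
forms on a six-dimensional subspace

`skewCurv A` is the algebraic curvature tensor
`2 A(x,y) A(z,w) + A(x,z) A(y,w) - A(x,w) A(y,z)` of a skew form `A`.

(1) Superadditivity in dimension six: if the curvature operator of `R₁` is nonnegative and
`R₂ = ∑ skewCurv (A k)` for six arbitrary skew forms `A k`, then the Gauss–Bonnet–Chern integrand
of `R₁ + R₂` is at least the sum of those of `R₁` and of `R₂`.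
(2) In dimension six, for such an `R₂`: the Gauss–Bonnet–Chern integrand of `R₁ + R₂` is
nonnegative for all `R₁` with nonnegative curvature operator if and only if that of `R₂` is.
(3) In every even dimension `2 m`: if `SixPiecePos δ R`, that is, if the curvature operator of
`R - ∑ skewCurv (A k)` is at least `δ` for six skew forms `A k` living on some six-dimensional
subspace `W` such that the Gauss–Bonnet–Chern integrand of the restriction of
`∑ skewCurv (A k)` to `W` is nonnegative, then the Gauss–Bonnet–Chern integrand of `R` is at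
least its value for constant curvature `δ`.
(4) The integral of the integrand (for a closed Riemannian manifold: the Euler characteristic) is
nonnegative for fields of such tensors, and positive if `δ` is positive somewhere.
-/

set_option autoImplicit false

namespace Pool.Agent.Results.MP_4a593f_gt.SixSkewForms

open Pool.Agent.W666.GB Pool.Agent.W669.HD Pool.Agent.Y195.HF Pool.Agent.U486.HF

theorem result :
    (∀ (V : Type) [NormedAddCommGroup V] [InnerProductSpace ℝ V]
      (e : OrthonormalBasis (Fin 3 × Bool) ℝ V) (R₁ : V → V → V → V → ℝ)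
      (A : Fin 6 → V → V → ℝ), AlgCurv R₁ → OpNonneg R₁ → (∀ k, SkewForm (A k)) →
      gbc e R₁ + gbc e (fun u v w z => ∑ k, skewCurv (A k) u v w z) ≤
        gbc e (addT R₁ fun u v w z => ∑ k, skewCurv (A k) u v w z)) ∧
    (∀ (V : Type) [NormedAddCommGroup V] [InnerProductSpace ℝ V]
      (e : OrthonormalBasis (Fin 3 × Bool) ℝ V) (A : Fin 6 → V → V → ℝ),
      (∀ k, SkewForm (A k)) →
      ((∀ R₁ : V → V → V → V → ℝ, AlgCurv R₁ → OpNonneg R₁ →
          0 ≤ gbc e (addT R₁ fun u v w z => ∑ k, skewCurv (A k) u v w z)) ↔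
        0 ≤ gbc e (fun u v w z => ∑ k, skewCurv (A k) u v w z))) ∧
    (∀ (m : ℕ) (V : Type) [NormedAddCommGroup V] [InnerProductSpace ℝ V]
      (e : OrthonormalBasis (Fin m × Bool) ℝ V) (R : V → V → V → V → ℝ) (δ : ℝ),
      AlgCurv R → 0 ≤ δ → SixPiecePos δ R → roundGB m δ ≤ gbc e R) ∧
    (∀ (m : ℕ) (M : Type) [MeasurableSpace M] (μ : MeasureTheory.Measure M) (K : CurvField m M)
      (δ : M → ℝ), (∀ p, 0 ≤ δ p ∧ SixPiecePos (δ p) (K.R p)) →
      0 ≤ ∫ p, K.gb p ∂μ ∧
        (MeasureTheory.Integrable K.gb μ → μ {p | 0 < δ p} ≠ 0 → 0 < ∫ p, K.gb p ∂μ)) :=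
  ⟨fun _ _ _ e _ _ h₁ hn hA => six_super_pos e h₁ hn hA,
    fun _ _ _ e _ hA => six_iff_pos e hA,
    fun _ _ _ _ e _ _ hR hδ h => six_piece_pos e hR hδ h,
    fun _ _ _ μ K δ h => field_six_pos μ K δ h⟩

end Pool.Agent.Results.MP_4a593f_gt.SixSkewForms
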