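import Pool.Agent.U486.SN.Fin

/-!
# Positivity of the Gauss–Bonnet–Chern integrand for strongly positive curvature in dimension six

A curvature tensor is strongly nonnegative (`StrongNonneg`) if it becomes nonnegative on all
bivectors after adding a `4`-form; equivalently, if it is a sum of the tensors `skewCurv A` of skew
forms `A`.

In dimension six, let `F` be an algebraic curvature tensor with nonnegative curvature operator (for
instance `F = κ R₀`, of constant curvature `κ > 0`), and suppose that

* `R - F` is strongly nonnegative, and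
* the curvature operator of `R + 2 F` is nonnegative.

Then the Gauss–Bonnet–Chern integrand of `R` is at least the one of `F`. For `F = κ R₀`: the Euler
characteristic is positive for closed manifolds such that `R - κ` is strongly nonnegative and all
eigenvalues of the curvature operator are at least `-2 κ`, `κ > 0`, and for
`R = N + κ R₀ + ∑ skewCurv (A s)`, where `N` is nonnegative on all bivectors and the `A s` are any
number of skew forms with `∑ |A s|² ≤ 3 κ`. (In `StronglyPositivePinched` the bounds are `-κ / 2`
and `3 κ / 2` in dimension six; the last bound cannot be omitted, `TwoSkewForms`.)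

The proof: with `S = R - F` one has, for the symmetric trilinear form `E` of the integrand,
`E(R,R,R) = E(F,F,F) + 3 E(F,F,S) + E(R + 2 F,S,S)`, and the new point is that `E(P,S,S) ≥ 0` if the
curvature operator of `P` is nonnegative and `S` is strongly nonnegative (`Pool/Agent/U486/SN/`):
for `P = ∑ B j ⊗ B j` and `S = ∑ skewCurv (A k)` one has `E(P,S,S) = c ∑ W (B j)` with a quadratic
form `W` which is nonnegative on all bivectors `B` with `B ∧ B ∧ B = 0` (these have a kernel vector,
so that the form `A, A' ↦ A ∧ A' ∧ B` vanishes on a subspace of codimension five), and any such form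
satisfies `∑ W (B j) ≥ 0` if `∑ B j ∧ B j = 0` (`cub_quad`).
-/

set_option autoImplicit false

namespace Pool.Agent.Results.MP_4a593f_gt.StronglyPositiveDimSix

open MeasureTheory
open Pool.Agent.U486.SN (ComparesSix PinchedSix ManySkewSix)
open Pool.Agent.W666.GB (AlgCurv gbc roundGB CurvField)

theorem result :
    -- comparison with a tensor `F` whose curvature operator is nonnegative
    (∀ (V : Type) [NormedAddCommGroup V] [InnerProductSpace ℝ V]
      (e : OrthonormalBasis (Fin 3 × Bool) ℝ V) (R F : V → V → V → V → ℝ),
      AlgCurv R → ComparesSix F R → gbc e F ≤ gbc e R ∧ 0 ≤ gbc e F) ∧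
    -- comparison with the constant curvature `κ`
    (∀ (V : Type) [NormedAddCommGroup V] [InnerProductSpace ℝ V]
      (e : OrthonormalBasis (Fin 3 × Bool) ℝ V) (R : V → V → V → V → ℝ) (κ : ℝ),
      AlgCurv R → 0 ≤ κ → PinchedSix κ R → roundGB 3 κ ≤ gbc e R) ∧
    -- any number of skew forms
    (∀ (V : Type) [NormedAddCommGroup V] [InnerProductSpace ℝ V]
      (e : OrthonormalBasis (Fin 3 × Bool) ℝ V) (R : V → V → V → V → ℝ) (κ : ℝ),
      AlgCurv R → 0 ≤ κ → ManySkewSix κ R → roundGB 3 κ ≤ gbc e R) ∧
    -- the integrated form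
    (∀ (M : Type) [MeasurableSpace M] (μ : Measure M) (K : CurvField 3 M),
      (∀ p, ∃ F, ComparesSix F (K.R p)) → 0 ≤ ∫ p, K.gb p ∂μ) ∧
    (∀ (M : Type) [MeasurableSpace M] (μ : Measure M) (K : CurvField 3 M) (κ : M → ℝ),
      μ ≠ 0 → Integrable K.gb μ → (∀ p, 0 < κ p ∧ PinchedSix (κ p) (K.R p)) →
        0 < ∫ p, K.gb p ∂μ) :=
  ⟨fun _ _ _ e _ _ hR h => Pool.Agent.U486.SN.compares_six e hR h,
    fun _ _ _ e _ _ hR hκ h => Pool.Agent.U486.SN.pinched_six e hR hκ h,
    fun _ _ _ e _ _ hR hκ h =>
      Pool.Agent.U486.SN.pinched_six e hR hκ (Pool.Agent.U486.SN.many_pinched_six e h),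
    fun _ _ μ K h => Pool.Agent.U486.SN.field_six μ K h,
    fun _ _ μ K κ hμ hi h => Pool.Agent.U486.SN.field_six' μ K κ hμ hi h⟩

end Pool.Agent.Results.MP_4a593f_gt.StronglyPositiveDimSix
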