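import Pool.Agent.U908.LP.Plus

/-!
# Positivity of the Gauss–Bonnet–Chern integrand: forms in the light cone, curvature operators of
both kinds, and two skew forms

`PosT S`: `S = ∑ T_i + P + skewCurv A + skewCurv A'`, where

* `P` is a curvature tensor with nonnegative curvature operator,
* `A`, `A'` are skew forms, with curvature tensors
  `skewCurv A = 2 A(x,y) A(z,w) + A(x,z) A(y,w) - A(x,w) A(y,z)`,
* each `T_i` is a `PosSummand`: either of timelike type, that is
  `T(x,y,z,w) = (b(x,z) b(y,w) - b(x,w) b(y,z)) - ∑ (β_k(x,z) β_k(y,w) - β_k(x,w) β_k(y,z))` for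
  symmetric bilinear forms `b, β_1, …, β_N` such that `(b(x,x), β_1(x,x), …, β_N(x,x))` lies in the
  closed future light cone of the Lorentzian space `ℝ ⊕ ℝᴺ` for all `x` (`TimelikeT N T`, no
  restriction on `N`), or a curvature tensor whose quadratic form of the curvature operator of the
  second kind, `∑ T(e_a, e_c, e_d, e_b) h_ab h_cd`, is nonnegative on the symmetric `h` orthogonal to
  some matrix `g` (`SecondNonneg`; for `g` the identity: nonnegative curvature operator of the
  second kind).

`PosBlocks δ R`: `R = ∑ S_i + ∑ (x_k ∧ y_k)² + δ · (unit tensor)` for an orthogonal decomposition of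
the space into any number of blocks of any dimensions, tensors `S_i` of type `PosT` on the blocks,
and each `x_k` and each `y_k` in one of the blocks.

(1) In every even dimension the Gauss–Bonnet–Chern integrand of `R` is at least its value for
constant curvature `δ`. (2) The integral of the integrand (for a closed Riemannian manifold: the
Euler characteristic) is nonnegative, and positive if `δ` is positive somewhere.
(3) Spacelike submanifolds of any codimension with negative definite normal space: if the curvature
tensor of the ambient space satisfies `TwoSkewPos c` on the tangent space (for instance constant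
curvature `c`) and `|II(x,x)|² ≤ (c - δ) |x|⁴`, then the submanifold is in the class.
(4) The bound on `II` is optimal in every dimension.

The proof is in `Pool/Agent/U908/LC/` and `Pool/Agent/U908/LP/`. Its core: the heat flow
`exp(-t □)` of the Lorentzian wave operator preserves the polynomials without zeros in the tube over
the future light cone, in every dimension (`stab_flow`); it is applied to Moore determinants of
pencils of quaternionic hermitian matrices (as Pfaffians, `LF_ne_zero`).
-/

set_option autoImplicit false

namespace Pool.Agent.Results.MP_4a593f_gt.TimelikePlusOperator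

open Pool.Agent.W666.GB Pool.Agent.W669.HD Pool.Agent.Y195.HF Pool.Agent.U908.LC
open Pool.Agent.U908.LP
open Pool.Agent.N565.LZ (SecForm)

/-- The pointwise bound. -/
def Pointwise : Prop :=
  ∀ (m : ℕ) (V : Type) [NormedAddCommGroup V] [InnerProductSpace ℝ V]
    (e : OrthonormalBasis (Fin m × Bool) ℝ V) (R : V → V → V → V → ℝ) (δ : ℝ),
    0 ≤ δ → PosBlocks δ R → roundGB m δ ≤ gbc e R

/-- The integral. -/
def Integral : Prop :=
  ∀ (m : ℕ) (M : Type) [MeasurableSpace M] (μ : MeasureTheory.Measure M) (K : CurvField m M)
    (δ : M → ℝ), (∀ p, 0 ≤ δ p ∧ PosBlocks (δ p) (K.R p)) →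
    0 ≤ ∫ p, K.gb p ∂μ ∧
      (MeasureTheory.Integrable K.gb μ → μ {p | 0 < δ p} ≠ 0 → 0 < ∫ p, K.gb p ∂μ)

/-- Spacelike submanifolds of any codimension: `E` is the tangent space of the submanifold, `W` the
normal space with the sign of its inner product reversed. -/
def Spacelike : Prop :=
  ∀ (Z W : Type) [NormedAddCommGroup Z] [InnerProductSpace ℝ Z]
    [NormedAddCommGroup W] [InnerProductSpace ℝ W] [FiniteDimensional ℝ W]
    (Ra : Z → Z → Z → Z → ℝ) (E : Submodule ℝ Z) [FiniteDimensional ℝ E] (β : E → E → W)
    (c δ : ℝ), AlgCurv Ra → TwoSkewPos c Ra → SecForm β → δ ≤ c →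
    (∀ x, ‖β x x‖ ^ 2 ≤ (c - δ) * ‖x‖ ^ 4) → PosBlocks δ (spaceR Ra E β)

/-- The bound on the second fundamental form is optimal, already for hypersurfaces of spaces of
constant curvature `c`. -/
def Optimal : Prop :=
  ∀ (m : ℕ) (V : Type) [NormedAddCommGroup V] [InnerProductSpace ℝ V]
    (e : OrthonormalBasis (Fin m × Bool) ℝ V) (c c' : ℝ), 1 ≤ m → 0 < c → c < c' →
    ∃ β : V → V → ℝ, SecForm β ∧ (∀ x, ‖β x x‖ ^ 2 ≤ c' * ‖x‖ ^ 4) ∧
      gbc e (spaceT c β) < 0

theorem result : Pointwise ∧ Integral ∧ Spacelike ∧ Optimal :=
  ⟨fun _ _ _ _ e _ _ hδ h => pos_bound e hδ h,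
    fun _ _ _ μ K δ h => field_plus μ K δ h,
    fun _ _ _ _ _ _ _ _ E _ _ _ _ hRa hT hs hc hβ => space_pos hRa E hs hc hT hβ,
    fun _ _ _ _ e _ _ hm hc hcc => sharp_pos e hm hc hcc⟩

end Pool.Agent.Results.MP_4a593f_gt.TimelikePlusOperator
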